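import Mathlib

/-!
# Maps of a finite set of minimal rank
-/

set_option autoImplicit false
set_option linter.unusedSectionVars false

namespace Pool.Agent.Y613.FS

open Finset

variable {α : Type} [Fintype α] [DecidableEq α]

/-- the rank of a map -/
def rk (f : α → α) : ℕ := (univ.image f).card

lemma rk_comp_le_left (f g : α → α) : rk (f ∘ g) ≤ rk f := by
  unfold rk
  apply card_le_card
  intro x hx
  rw [mem_image] at hx ⊢
  obtain ⟨y, -, hy⟩ := hx
  exact ⟨g y, mem_univ _, hy⟩

lemma rk_comp_le_right (f g : α → α) : rk (f ∘ g) ≤ rk g := by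
  unfold rk
  rw [← image_image]
  exact card_image_le

lemma rk_le (f : α → α) : rk f ≤ Fintype.card α := by
  unfold rk
  exact card_image_le

lemma rk_pos [Nonempty α] (f : α → α) : 0 < rk f := by
  unfold rk
  rw [card_pos]
  exact univ_nonempty.image f

/-- a map of rank `r` whose square has rank `r` permutes its image -/
lemma image_image_eq {f : α → α} (h : rk (f ∘ f) = rk f) :
    (univ.image f).image f = univ.image f := by
  apply eq_of_subset_of_card_le
  · intro x hx
    rw [mem_image] at hx ⊢
    obtain ⟨y, -, hy⟩ := hx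
    exact ⟨y, mem_univ _, hy⟩
  · rw [image_image]
    exact h.ge

/-- the factorial of the number of elements is a period of all the permutations -/
lemma iterate_factorial {I : Finset α} {f : α → α} (hI : I.image f = I) {w : ℕ}
    (hw : I.card ≤ w) : ∀ x ∈ I, f^[w.factorial] x = x := by
  have hmaps : Set.MapsTo f (I : Set α) (I : Set α) := by
    intro x hx
    rw [← hI]
    exact mem_coe.mpr (mem_image_of_mem f (mem_coe.mp hx))
  let g : I → I := fun x => ⟨f x, hmaps x.2⟩
  have hsurj : Function.Surjective g := by
    rintro ⟨y, hy⟩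
    have : y ∈ I.image f := by rw [hI]; exact hy
    rw [mem_image] at this
    obtain ⟨x, hx, hxy⟩ := this
    exact ⟨⟨x, hx⟩, Subtype.ext hxy⟩
  let e : Equiv.Perm I := Equiv.ofBijective g (Finite.surjective_iff_bijective.mp hsurj)
  have he : e ^ w.factorial = 1 := by
    have h1 : Fintype.card (Equiv.Perm I) = I.card.factorial := by
      rw [Fintype.card_perm, Fintype.card_coe]
    obtain ⟨c, hc⟩ := Nat.factorial_dvd_factorial hw
    rw [hc, pow_mul, ← h1, pow_card_eq_one, one_pow]
  have h2 : ∀ n : ℕ, ∀ x : I, ((e ^ n) x : α) = f^[n] x := by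
    intro n
    induction n with
    | zero => intro x; rfl
    | succ n ih =>
      intro x
      rw [pow_succ, Equiv.Perm.mul_apply, ih, Function.iterate_succ_apply]
      rfl
  intro x hx
  have h3 := h2 w.factorial ⟨x, hx⟩
  rw [he] at h3
  exact h3.symm

/-- **The main lemma on minimal rank.** -/
lemma iterate_eq {w : ℕ} (hw : Fintype.card α ≤ w) {h s : α → α} (h1 : rk (h ∘ h) = rk h)
    (h2 : rk (h ∘ s ∘ h) = rk h) (h3 : rk ((h ∘ s ∘ h) ∘ (h ∘ s ∘ h)) = rk h) :
    (h ∘ s ∘ h)^[w.factorial] = h^[w.factorial] := by
  set p := h ∘ s ∘ h with hp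
  set I := univ.image h with hI
  have hIw : I.card ≤ w := (card_image_le.trans (by simp)).trans hw
  have hpI : univ.image p = I := by
    apply eq_of_subset_of_card_le
    · intro x hx
      rw [mem_image] at hx
      obtain ⟨y, -, hy⟩ := hx
      rw [hI, mem_image]
      exact ⟨s (h y), mem_univ _, hy⟩
    · exact h2.ge
  have hh : I.image h = I := image_image_eq h1
  have hpp : I.image p = I := by
    have := image_image_eq (f := p) (by rw [h3, h2])
    rw [hpI] at this
    exact this
  have hhI := iterate_factorial hh hIw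
  have hpI' := iterate_factorial hpp hIw
  obtain ⟨N, hN⟩ : ∃ N, w.factorial = N + 1 :=
    ⟨w.factorial - 1, by have := Nat.factorial_pos w; omega⟩
  funext x
  have hx : h x ∈ I.image h := by
    rw [hh]
    exact mem_image_of_mem h (mem_univ x)
  rw [mem_image] at hx
  obtain ⟨y, hy, hyx⟩ := hx
  have e1 : p x = p y := by
    show h (s (h x)) = h (s (h y))
    rw [hyx]
  have e2 : p^[w.factorial] x = y := by
    rw [← hpI' y hy, hN, Function.iterate_succ_apply, Function.iterate_succ_apply, e1]
  have e3 : h^[w.factorial] x = y := by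
    rw [← hhI y hy, hN, Function.iterate_succ_apply, Function.iterate_succ_apply, hyx]
  rw [e2, e3]

end Pool.Agent.Y613.FS
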